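import Mathlib
set_option autoImplicit false

/-! Two permutations of a finite set all of whose cycles have the same length `n` are conjugate
by a permutation with prescribed values on representatives of different cycles. -/

namespace Pool.Agent.X333.RS

open Equiv

variable {Ω : Type} [Finite Ω] {n : ℕ}

/-- all cycles of `a` have length `n` -/
def Fr (n : ℕ) (a : Perm Ω) : Prop := ∀ (k : ℤ) (w : Ω), (a ^ k) w = w ↔ (n : ℤ) ∣ k

omit [Finite Ω] in
theorem Fr.eq_iff {a : Perm Ω} (h : Fr n a) (i j : ℤ) (w : Ω) :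
    (a ^ i) w = (a ^ j) w ↔ (n : ℤ) ∣ i - j := by
  rw [← h (i - j) w, sub_eq_neg_add, zpow_add, zpow_neg, Perm.mul_apply, Perm.inv_eq_iff_eq]

section

variable (a : Perm Ω)

/-- the set of cycles -/
abbrev Cy : Type := Quotient (Perm.SameCycle.setoid a)

/-- the coordinates given by representatives `r` -/
def co (n : ℕ) (r : Cy a → Ω) (q : Cy a × ZMod n) : Ω := (a ^ ((q.2.val : ℕ) : ℤ)) (r q.1)

variable {a}

omit [Finite Ω] in
theorem co_bij [NeZero n] (h : Fr n a) {r : Cy a → Ω} (hr : ∀ c, (⟦r c⟧ : Cy a) = c) :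
    Function.Bijective (co a n r) := by
  constructor
  · rintro ⟨c, i⟩ ⟨c', i'⟩ heq
    simp only [co] at heq
    have h1 : a.SameCycle (r c) (r c') := by
      have h2 : a.SameCycle (r c) ((a ^ ((i.val : ℕ) : ℤ)) (r c)) := ⟨_, rfl⟩
      have h3 : a.SameCycle (r c') ((a ^ ((i'.val : ℕ) : ℤ)) (r c')) := ⟨_, rfl⟩
      rw [heq] at h2
      exact h2.trans h3.symm
    have h4 : c = c' := by
      rw [← hr c, ← hr c']
      exact Quotient.sound h1
    subst h4
    rw [h.eq_iff] at heq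
    have h5 : i = i' := by
      have h6 : ((((i.val : ℕ) : ℤ) - ((i'.val : ℕ) : ℤ) : ℤ) : ZMod n) = 0 :=
        (ZMod.intCast_zmod_eq_zero_iff_dvd _ _).2 heq
      simpa [sub_eq_zero] using h6
    rw [h5]
  · intro w
    have h1 : a.SameCycle (r ⟦w⟧) w := Quotient.exact (hr ⟦w⟧)
    obtain ⟨k, hk⟩ := h1
    refine ⟨(⟦w⟧, (k : ZMod n)), ?_⟩
    simp only [co]
    refine Eq.trans ((h.eq_iff _ k _).2 ?_) hk
    rw [← ZMod.intCast_zmod_eq_zero_iff_dvd]
    simp

omit [Finite Ω] in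
theorem co_shift [NeZero n] (h : Fr n a) (r : Cy a → Ω) (c : Cy a) (i : ZMod n) :
    a (co a n r (c, i)) = co a n r (c, i + 1) := by
  simp only [co]
  have h1 : a ((a ^ ((i.val : ℕ) : ℤ)) (r c)) = (a ^ (1 + ((i.val : ℕ) : ℤ))) (r c) := by
    rw [zpow_add, zpow_one]
    rfl
  rw [h1, h.eq_iff, ← ZMod.intCast_zmod_eq_zero_iff_dvd]
  simp
  ring

open Classical in
/-- representatives through the prescribed points -/
noncomputable def rep (a : Perm Ω) {J : Type} (p : J → Ω) (c : Cy a) : Ω :=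
  if h : ∃ j, (⟦p j⟧ : Cy a) = c then p h.choose else Quotient.out c

omit [Finite Ω] in
theorem rep_mk (a : Perm Ω) {J : Type} (p : J → Ω) (c : Cy a) : (⟦rep a p c⟧ : Cy a) = c := by
  unfold rep
  split_ifs with h
  · exact h.choose_spec
  · exact Quotient.out_eq c

omit [Finite Ω] in
theorem rep_pt (a : Perm Ω) {J : Type} (p : J → Ω)
    (hp : ∀ j j', a.SameCycle (p j) (p j') → j = j') (j : J) : rep a p ⟦p j⟧ = p j := by
  unfold rep
  have h : ∃ j', (⟦p j'⟧ : Cy a) = ⟦p j⟧ := ⟨j, rfl⟩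
  rw [dif_pos h]
  have h1 : a.SameCycle (p h.choose) (p j) := Quotient.exact h.choose_spec
  rw [hp _ _ h1]

end

theorem exists_equiv {Q Q' J : Type} [Finite Q] [Finite Q'] (hc : Nat.card Q = Nat.card Q')
    (f : J → Q) (g : J → Q') (hf : Function.Injective f) (hg : Function.Injective g) :
    ∃ s : Q ≃ Q', ∀ j, s (f j) = g j := by
  classical
  obtain ⟨e⟩ := (Finite.card_eq (α := Q) (β := Q')).1 hc
  have : Fintype Q' := Fintype.ofFinite Q'
  let e1 : {x // x ∈ Set.range (e ∘ f)} ≃ {x // x ∈ Set.range g} :=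
    (Equiv.ofInjective _ (e.injective.comp hf)).symm.trans (Equiv.ofInjective g hg)
  refine ⟨e.trans (Equiv.extendSubtype e1), fun j => ?_⟩
  have hm : e (f j) ∈ Set.range (e ∘ f) := ⟨j, rfl⟩
  show Equiv.extendSubtype e1 (e (f j)) = g j
  rw [Equiv.extendSubtype_apply_of_mem e1 _ hm]
  have h1 : (⟨e (f j), hm⟩ : {x // x ∈ Set.range (e ∘ f)}) =
      Equiv.ofInjective _ (e.injective.comp hf) j := rfl
  show ((Equiv.ofInjective g hg ((Equiv.ofInjective _ (e.injective.comp hf)).symm ⟨e (f j), hm⟩) :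
    {x // x ∈ Set.range g}) : Q') = g j
  rw [h1, Equiv.symm_apply_apply]
  rfl

theorem extend [NeZero n] {a b : Perm Ω} (ha : Fr n a) (hb : Fr n b) {J : Type} (p q : J → Ω)
    (hp : ∀ j j', a.SameCycle (p j) (p j') → j = j')
    (hq : ∀ j j', b.SameCycle (q j) (q j') → j = j') :
    ∃ U : Perm Ω, (∀ w, U (a w) = b (U w)) ∧ ∀ j, U (p j) = q j := by
  classical
  let eA : Cy a × ZMod n ≃ Ω := Equiv.ofBijective _ (co_bij ha (rep_mk a p))
  let eB : Cy b × ZMod n ≃ Ω := Equiv.ofBijective _ (co_bij hb (rep_mk b q))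
  have hA : ∀ c i, a (eA (c, i)) = eA (c, i + 1) := co_shift ha _
  have hB : ∀ c i, b (eB (c, i)) = eB (c, i + 1) := co_shift hb _
  have hn : Nat.card (ZMod n) = n := Nat.card_zmod n
  have hcard : Nat.card (Cy a) = Nat.card (Cy b) := by
    have h1 := Nat.card_congr (eA.trans eB.symm)
    rw [Nat.card_prod, Nat.card_prod, hn] at h1
    exact Nat.eq_of_mul_eq_mul_right (NeZero.pos n) h1
  obtain ⟨s, hs⟩ := exists_equiv hcard (fun j => (⟦p j⟧ : Cy a)) (fun j => (⟦q j⟧ : Cy b))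
    (fun j j' h => hp j j' (Quotient.exact h)) (fun j j' h => hq j j' (Quotient.exact h))
  let U : Perm Ω := eA.symm.trans ((Equiv.prodCongr s (Equiv.refl _)).trans eB)
  have hU : ∀ c i, U (eA (c, i)) = eB (s c, i) := by
    intro c i
    show eB (Equiv.prodCongr s (Equiv.refl _) (eA.symm (eA (c, i)))) = _
    rw [Equiv.symm_apply_apply]
    rfl
  refine ⟨U, fun w => ?_, fun j => ?_⟩
  · obtain ⟨⟨c, i⟩, rfl⟩ := eA.surjective w
    rw [hA, hU, hU, hB]
  · have h1 : eA (⟦p j⟧, 0) = p j := by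
      show co a n (rep a p) (⟦p j⟧, 0) = p j
      simp [co, rep_pt a p hp]
    have h2 : eB (⟦q j⟧, 0) = q j := by
      show co b n (rep b q) (⟦q j⟧, 0) = q j
      simp [co, rep_pt b q hq]
    rw [← h1, hU, hs, h2]

end Pool.Agent.X333.RS
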