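import Mathlib
import Pool.Agent.X333.RS.Ext
import Pool.Agent.H26R2.Basic
import Pool.Agent.H599R3.RF
set_option autoImplicit false

/-! The group `⟨x, u, v ∣ x = [x^u, x^v]⟩` is residually finite and `x ≠ 1` lies in all terms of
the derived series. -/

namespace Pool.Agent.X333.RS

open Equiv
open scoped commutatorElement

/-- the free group on `y, z` -/
abbrev F : Type := FreeGroup (Fin 2)

/-- the element `y` or `z` -/
def cc (i : Fin 2) : F := FreeGroup.of i

/-- the commutator `[y, z]` -/
def xx : F := ⁅cc 0, cc 1⁆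

section heis

variable (R : Type) [CommRing R]

/-- the Heisenberg action on the plane: the shift -/
def hY : Perm (R × R) where
  toFun q := (q.1 + 1, q.2)
  invFun q := (q.1 - 1, q.2)
  left_inv q := by ext <;> simp
  right_inv q := by ext <;> simp

/-- the Heisenberg action on the plane: the shear -/
def hZ : Perm (R × R) where
  toFun q := (q.1, q.2 + q.1)
  invFun q := (q.1, q.2 - q.1)
  left_inv q := by ext <;> simp
  right_inv q := by ext <;> simp

/-- the central translation -/
def hX : Perm (R × R) where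
  toFun q := (q.1, q.2 - 1)
  invFun q := (q.1, q.2 + 1)
  left_inv q := by ext <;> simp
  right_inv q := by ext <;> simp

theorem hX_eq : ⁅hY R, hZ R⁆ = hX R := by
  rw [commutatorElement_def]
  ext q
  · show (q.1 - 1 + 1 : R) = q.1
    ring
  · show (q.2 - q.1 + (q.1 - 1) : R) = q.2 - 1
    ring

theorem hY_pow (k : ℤ) (q : R × R) : (hY R ^ k) q = (q.1 + k, q.2) := by
  induction k using Int.induction_on generalizing q with
  | zero => simp
  | succ k ih =>
    rw [zpow_add_one, Perm.mul_apply, ih]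
    show (q.1 + 1 + ((k : ℤ) : R), q.2) = _
    ext
    · push_cast
      ring
    · rfl
  | pred k ih =>
    rw [zpow_sub_one, Perm.mul_apply, ih]
    show (q.1 - 1 + ((-k : ℤ) : R), q.2) = _
    ext
    · push_cast
      ring
    · rfl

theorem hZ_pow (k : ℤ) (q : R × R) : (hZ R ^ k) q = (q.1, q.2 + k * q.1) := by
  induction k using Int.induction_on generalizing q with
  | zero => simp
  | succ k ih =>
    rw [zpow_add_one, Perm.mul_apply, ih]
    show (q.1, q.2 + q.1 + ((k : ℤ) : R) * q.1) = _
    ext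
    · rfl
    · push_cast
      ring
  | pred k ih =>
    rw [zpow_sub_one, Perm.mul_apply, ih]
    show (q.1, q.2 - q.1 + ((-k : ℤ) : R) * q.1) = _
    ext
    · rfl
    · push_cast
      ring

theorem hX_pow (k : ℤ) (q : R × R) : (hX R ^ k) q = (q.1, q.2 - k) := by
  induction k using Int.induction_on generalizing q with
  | zero => simp
  | succ k ih =>
    rw [zpow_add_one, Perm.mul_apply, ih]
    show (q.1, q.2 - 1 - ((k : ℤ) : R)) = _
    ext
    · rfl
    · push_cast
      ring
  | pred k ih =>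
    rw [zpow_sub_one, Perm.mul_apply, ih]
    show (q.1, q.2 + 1 - ((-k : ℤ) : R)) = _
    ext
    · rfl
    · push_cast
      ring

theorem hY_ord (k : ℤ) : hY R ^ k = 1 ↔ (k : R) = 0 := by
  constructor
  · intro h
    have := congrArg (fun s => (s (0, 0)).1) h
    simpa [hY_pow] using this
  · intro h
    ext q <;> simp [hY_pow, h]

theorem hZ_ord (k : ℤ) : hZ R ^ k = 1 ↔ (k : R) = 0 := by
  constructor
  · intro h
    have := congrArg (fun s => (s (1, 0)).2) h
    simpa [hZ_pow] using this
  · intro h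
    ext q <;> simp [hZ_pow, h]

theorem hX_ord (k : ℤ) : hX R ^ k = 1 ↔ (k : R) = 0 := by
  constructor
  · intro h
    have := congrArg (fun s => (s (0, 0)).2) h
    simpa [hX_pow] using this
  · intro h
    ext q <;> simp [hX_pow, h]

/-- the homomorphism to the Heisenberg group -/
def hh : F →* Perm (R × R) := FreeGroup.lift ![hY R, hZ R]

theorem hh_zero : hh R (cc 0) = hY R := by simp [hh, cc]

theorem hh_one : hh R (cc 1) = hZ R := by simp [hh, cc]

theorem hh_xx : hh R xx = hX R := by
  rw [xx, map_commutatorElement, hh_zero, hh_one, hX_eq]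

end heis

/-- a finite quotient of `F` which separates a given finite set from `1` and in which
`y`, `z` and `[y, z]` have the same order -/
theorem good_quotient (S : Finset F) (hS : ∀ s ∈ S, s ≠ 1) :
    ∃ (P : Type) (_ : Group P) (_ : Finite P) (f : F →* P) (n : ℕ) (_ : NeZero n),
      (∀ s ∈ S, f s ≠ 1) ∧ (∀ i, ∀ k : ℤ, f (cc i) ^ k = 1 ↔ (n : ℤ) ∣ k) ∧
      (∀ k : ℤ, f xx ^ k = 1 ↔ (n : ℤ) ∣ k) := by
  obtain ⟨E, i1, i2, f, hf⟩ := Pool.Agent.H599R3.rfin_finset (Pool.Agent.H599R3.rfin_free _) S hS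
  set n := Nat.card E with hn
  have hn0 : NeZero n := ⟨Nat.card_pos.ne'⟩
  let h : F →* Perm (ZMod n × ZMod n) := hh (ZMod n)
  have hE : ∀ (e : E) (k : ℤ), (n : ℤ) ∣ k → e ^ k = 1 := by
    rintro e k ⟨c, rfl⟩
    rw [zpow_mul, zpow_natCast, pow_card_eq_one', one_zpow]
  have key : ∀ w : F, (∀ k : ℤ, h w ^ k = 1 ↔ (n : ℤ) ∣ k) →
      ∀ k : ℤ, (f.prod h) w ^ k = 1 ↔ (n : ℤ) ∣ k := by
    intro w hw k
    constructor
    · intro h2
      have h3 := congrArg Prod.snd h2
      exact (hw k).1 h3
    · intro h2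
      exact Prod.ext (hE _ _ h2) ((hw k).2 h2)
  refine ⟨E × Perm (ZMod n × ZMod n), inferInstance, inferInstance, f.prod h, n, hn0, ?_, ?_, ?_⟩
  · intro s hs h2
    exact hf s hs (congrArg Prod.fst h2)
  · intro i
    refine key _ ?_
    fin_cases i
    · intro k
      show hh (ZMod n) (cc 0) ^ k = 1 ↔ _
      rw [hh_zero, hY_ord, ZMod.intCast_zmod_eq_zero_iff_dvd]
    · intro k
      show hh (ZMod n) (cc 1) ^ k = 1 ↔ _
      rw [hh_one, hZ_ord, ZMod.intCast_zmod_eq_zero_iff_dvd]
  · refine key _ ?_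
    intro k
    show hh (ZMod n) xx ^ k = 1 ↔ _
    rw [hh_xx, hX_ord, ZMod.intCast_zmod_eq_zero_iff_dvd]

/-! ### words -/

section words

variable {G : Type} [Group G] (ev : F →* G) (t : Fin 2 → G)

/-- the value of a letter -/
def lt (s : Fin 2 × Bool) : G := if s.2 then t s.1 else (t s.1)⁻¹

/-- the value of a word -/
def W (s : ℕ → Fin 2 × Bool) (p : ℕ → F) : ℕ → G
  | 0 => 1
  | j + 1 => lt t (s j) * ev (p j) * W s p j

theorem W_congr {s s' : ℕ → Fin 2 × Bool} {p p' : ℕ → F} {N : ℕ}
    (h : ∀ j < N, s j = s' j ∧ p j = p' j) : W ev t s p N = W ev t s' p' N := by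
  induction N with
  | zero => rfl
  | succ N ih =>
    show lt t (s N) * ev (p N) * W ev t s p N = lt t (s' N) * ev (p' N) * W ev t s' p' N
    rw [(h N (Nat.lt_succ_self N)).1, (h N (Nat.lt_succ_self N)).2,
      ih fun j hj => h j (hj.trans (Nat.lt_succ_self N))]

/-- the pinch condition for `s * p * s'` -/
def Pinch (s : Fin 2 × Bool) (p : F) (s' : Fin 2 × Bool) : Prop :=
  s.1 = s'.1 ∧ ((s.2 = true ∧ s'.2 = false ∧ ∃ k : ℤ, p = cc s.1 ^ k) ∨
    (s.2 = false ∧ s'.2 = true ∧ ∃ k : ℤ, p = xx ^ k))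

/-- reduced words -/
def Red (s : ℕ → Fin 2 × Bool) (p : ℕ → F) (N : ℕ) : Prop :=
  ∀ j, j + 1 < N → ¬ Pinch (s (j + 1)) (p (j + 1)) (s j)

theorem pinch_eval (hrel : ∀ i, (t i)⁻¹ * ev xx * t i = ev (cc i)) {s : Fin 2 × Bool} {p : F}
    {s' : Fin 2 × Bool} (h : Pinch s p s') : ∃ q : F, lt t s * ev p * lt t s' = ev q := by
  obtain ⟨i, b⟩ := s
  obtain ⟨i', b'⟩ := s'
  obtain ⟨h1, h2⟩ := h
  obtain rfl : i = i' := h1
  rcases h2 with ⟨h3, h4, k, h5⟩ | ⟨h3, h4, k, h5⟩
  · obtain rfl : b = true := h3
    obtain rfl : b' = false := h4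
    refine ⟨xx ^ k, ?_⟩
    rw [h5, map_zpow, map_zpow, ← hrel]
    simp only [lt]
    have h6 : ((t i)⁻¹ * ev xx * t i) ^ k = (t i)⁻¹ * ev xx ^ k * t i := by
      have := conj_zpow (a := (t i)⁻¹) (b := ev xx) (i := k)
      rw [inv_inv] at this
      exact this
    simp only [if_true]
    rw [h6]
    simp [mul_assoc]
  · obtain rfl : b = false := h3
    obtain rfl : b' = true := h4
    refine ⟨cc i ^ k, ?_⟩
    rw [h5, map_zpow, map_zpow, ← hrel]
    have h6 : ((t i)⁻¹ * ev xx * t i) ^ k = (t i)⁻¹ * ev xx ^ k * t i := by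
      have := conj_zpow (a := (t i)⁻¹) (b := ev xx) (i := k)
      rw [inv_inv] at this
      exact this
    rw [h6]
    simp [lt]

/-- the set of elements having a reduced form -/
def HasForm (g : G) : Prop := ∃ (N : ℕ) (s : ℕ → Fin 2 × Bool) (p : ℕ → F) (p0 : F),
  Red s p N ∧ g = ev p0 * W ev t s p N

theorem hasForm_one : HasForm ev t (1 : G) :=
  ⟨0, fun _ => (0, true), fun _ => 1, 1, fun j hj => absurd hj (by omega), by simp [W]⟩

theorem hasForm_ev (q : F) {g : G} (h : HasForm ev t g) : HasForm ev t (ev q * g) := by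
  obtain ⟨N, s, p, p0, h1, h2⟩ := h
  exact ⟨N, s, p, q * p0, h1, by rw [h2, map_mul, mul_assoc]⟩

theorem hasForm_lt (hrel : ∀ i, (t i)⁻¹ * ev xx * t i = ev (cc i)) (a : Fin 2 × Bool) {g : G}
    (h : HasForm ev t g) : HasForm ev t (lt t a * g) := by
  classical
  obtain ⟨N, s, p, p0, h1, h2⟩ := h
  rcases N with _ | M
  · refine ⟨1, fun _ => a, fun _ => p0, 1, fun j hj => absurd hj (by omega), ?_⟩
    rw [h2]
    simp [W]
  · by_cases hp : Pinch a p0 (s M)
    · obtain ⟨q, hq⟩ := pinch_eval ev t hrel hp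
      refine ⟨M, s, p, q * p M, fun j hj => h1 j (by omega), ?_⟩
      rw [h2, map_mul, ← hq]
      show lt t a * (ev p0 * (lt t (s M) * ev (p M) * W ev t s p M)) = _
      simp only [mul_assoc]
    · refine ⟨M + 2, Function.update s (M + 1) a, Function.update p (M + 1) p0, 1, ?_, ?_⟩
      · intro j hj
        by_cases hjM : j = M
        · subst hjM
          rw [Function.update_self, Function.update_self, Function.update_of_ne (by omega)]
          exact hp
        · rw [Function.update_of_ne (by omega), Function.update_of_ne (by omega),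
            Function.update_of_ne (by omega)]
          exact h1 j (by omega)
      · have h3 : W ev t (Function.update s (M + 1) a) (Function.update p (M + 1) p0) (M + 1) =
            W ev t s p (M + 1) := by
          refine W_congr ev t fun j hj => ?_
          rw [Function.update_of_ne (by omega), Function.update_of_ne (by omega)]
          exact ⟨rfl, rfl⟩
        show _ = ev 1 * (lt t (Function.update s (M + 1) a (M + 1)) *
          ev (Function.update p (M + 1) p0 (M + 1)) *
          W ev t (Function.update s (M + 1) a) (Function.update p (M + 1) p0) (M + 1))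
        rw [Function.update_self, Function.update_self, h3, h2, map_one, one_mul, mul_assoc]

end words

/-! ### the finite representation -/

theorem mem_of_comm_cc (i : Fin 2) {p : F} (h : Commute p (cc i)) : ∃ k : ℤ, p = cc i ^ k :=
  Pool.Agent.H26R2.mem_zpowers_of_commute h
    (FreeGroup.lift fun j => if j = i then Multiplicative.ofAdd 1 else 1) (by simp [cc])

/-- elements of the Heisenberg group -/
theorem hh_form (w : F) : ∃ c d e : ℤ, ∀ q : ℤ × ℤ, hh ℤ w q = (q.1 + c, q.2 + d + e * q.1) := by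
  induction w using FreeGroup.induction_on with
  | C1 => exact ⟨0, 0, 0, fun q => by simp⟩
  | of a =>
    fin_cases a
    · refine ⟨1, 0, 0, fun q => ?_⟩
      show hh ℤ (cc 0) q = _
      rw [hh_zero]
      show (q.1 + 1, q.2) = _
      ext <;> simp
    · refine ⟨0, 0, 1, fun q => ?_⟩
      show hh ℤ (cc 1) q = _
      rw [hh_one]
      show (q.1, q.2 + q.1) = _
      ext <;> simp
  | inv_of a ih =>
    obtain ⟨c, d, e, hc⟩ := ih
    refine ⟨-c, -d + e * c, -e, fun q => ?_⟩
    rw [map_inv, Perm.inv_eq_iff_eq, hc]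
    ext
    · simp
    · simp only
      ring
  | mul a b iha ihb =>
    obtain ⟨c, d, e, hc⟩ := iha
    obtain ⟨c', d', e', hc'⟩ := ihb
    refine ⟨c + c', d + d' + e * c', e + e', fun q => ?_⟩
    rw [map_mul, Perm.mul_apply, hc', hc]
    ext
    · simp only
      ring
    · simp only
      ring

theorem mem_of_comm_xx {p : F} (h : Commute p xx) : ∃ k : ℤ, p = xx ^ k := by
  obtain ⟨r, i, j, hi, hj⟩ := Pool.Agent.H26R2.exists_root h
  have hj1 : j = 1 ∨ j = -1 := by
    obtain ⟨c, d, e, hr⟩ := hh_form r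
    have h6 : ∀ (m : ℤ) (q : ℤ × ℤ), ((hh ℤ r ^ m) q).1 = q.1 + m * c := by
      intro m
      induction m using Int.induction_on with
      | zero => intro q; simp
      | succ k ih =>
        intro q
        rw [zpow_add_one, Perm.mul_apply, ih, hr]
        simp only
        ring
      | pred k ih =>
        intro q
        rw [zpow_sub_one, Perm.mul_apply, ih]
        have h8 := hr ((hh ℤ r)⁻¹ q)
        have h8a : hh ℤ r ((hh ℤ r)⁻¹ q) = q := by
          rw [← Perm.mul_apply, mul_inv_cancel, Perm.one_apply]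
        rw [h8a] at h8
        have h9 := congrArg Prod.fst h8
        simp only at h9
        rw [h9]
        ring
    have hx : hh ℤ r ^ j = hX ℤ := by rw [← map_zpow, ← hj, hh_xx]
    have hj0 : j ≠ 0 := by
      rintro rfl
      rw [zpow_zero] at hx
      have h8 := congrArg (fun s => (s ((0 : ℤ), (0 : ℤ))).2) hx
      have h9 : (0 : ℤ) = 0 - 1 := h8
      omega
    have hc0 : c = 0 := by
      have h8 := h6 j (0, 0)
      rw [hx] at h8
      have h9 : (0 : ℤ) = 0 + j * c := h8
      have h10 : j * c = 0 := by omega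
      exact (mul_eq_zero.1 h10).resolve_left hj0
    have h9 : ∀ b : ℤ, hh ℤ r (0, b) = (0, b + d) := by
      intro b
      rw [hr, hc0]
      simp
    have h10 : ∀ b : ℤ, (hh ℤ r)⁻¹ (0, b) = (0, b - d) := by
      intro b
      rw [Perm.inv_eq_iff_eq, h9]
      simp
    have h11 : ∀ (m : ℤ) (b : ℤ), (hh ℤ r ^ m) (0, b) = (0, b + m * d) := by
      intro m
      induction m using Int.induction_on with
      | zero => intro b; simp
      | succ k ih =>
        intro b
        rw [zpow_add_one, Perm.mul_apply, h9, ih]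
        ext
        · rfl
        · simp only
          ring
      | pred k ih =>
        intro b
        rw [zpow_sub_one, Perm.mul_apply, h10, ih]
        ext
        · rfl
        · simp only
          ring
    have h12 := h11 j 0
    rw [hx] at h12
    have h13 : (0 - 1 : ℤ) = 0 + j * d := congrArg Prod.snd h12
    have h14 : j ∣ 1 := ⟨-d, by linarith⟩
    exact Int.isUnit_iff.mp (isUnit_of_dvd_one h14)
  rcases hj1 with rfl | rfl
  · refine ⟨i, ?_⟩
    rw [hi, hj, zpow_one]
  · refine ⟨-i, ?_⟩
    rw [hi, hj]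
    group

end Pool.Agent.X333.RS
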