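import Mathlib
import Pool.Agent.X333.RS.Main
set_option autoImplicit false

/-! Reduced words act nontrivially in suitable finite permutation representations. -/

namespace Pool.Agent.X333.RS

open Equiv
open scoped commutatorElement

/-- left multiplication on the first coordinate -/
def lm (P : Type) [Group P] (K : Type) : P →* Perm (P × K) where
  toFun a := Equiv.prodCongr (Equiv.mulLeft a) (Equiv.refl K)
  map_one' := by ext q <;> simp
  map_mul' a b := by ext q <;> simp [mul_assoc]

theorem lm_apply {P : Type} [Group P] {K : Type} (a : P) (q : P × K) :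
    lm P K a q = (a * q.1, q.2) := rfl

theorem lm_sameCycle {P : Type} [Group P] {K : Type} {a : P} {q q' : P × K}
    (h : (lm P K a).SameCycle q q') : q.2 = q'.2 ∧ ∃ k : ℤ, a ^ k * q.1 = q'.1 := by
  obtain ⟨k, hk⟩ := h
  rw [← map_zpow, lm_apply] at hk
  rw [← hk]
  exact ⟨rfl, k, rfl⟩

theorem separate (s : ℕ → Fin 2 × Bool) (p : ℕ → F) (N : ℕ) (hred : Red s p N) (p0 : F)
    (h0 : 0 < N ∨ p0 ≠ 1) :
    ∃ (Ω : Type) (_ : Finite Ω) (α : F →* Perm Ω) (T : Fin 2 → Perm Ω),
      (∀ i, (T i)⁻¹ * α xx * T i = α (cc i)) ∧ α p0 * W α T s p N ≠ 1 := by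
  classical
  let S : Finset F := ((insert p0 ((Finset.range (N + 1)).image fun j => ⁅p j, xx⁆)) ∪
    ((Finset.range (N + 1)).image fun j => ⁅p j, cc 0⁆) ∪
    ((Finset.range (N + 1)).image fun j => ⁅p j, cc 1⁆)).filter (· ≠ 1)
  obtain ⟨P, iG, iF, f, n, hn, hS, hc, hx⟩ := good_quotient S
    (fun w hw => (Finset.mem_filter.1 hw).2)
  have hSx : ∀ j, j < N → Commute (f (p j)) (f xx) → Commute (p j) xx := by
    intro j hj h1
    by_contra h2
    have h3 : ⁅p j, xx⁆ ≠ 1 := fun h => h2 (commutatorElement_eq_one_iff_commute.1 h)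
    refine hS ⁅p j, xx⁆ ?_ ?_
    · refine Finset.mem_filter.2 ⟨?_, h3⟩
      refine Finset.mem_union_left _ (Finset.mem_union_left _ (Finset.mem_insert_of_mem ?_))
      exact Finset.mem_image.2 ⟨j, Finset.mem_range.2 (by omega), rfl⟩
    · rw [map_commutatorElement, commutatorElement_eq_one_iff_commute]
      exact h1
  have hSc : ∀ j, j < N → ∀ i, Commute (f (p j)) (f (cc i)) → Commute (p j) (cc i) := by
    intro j hj i h1
    by_contra h2
    have h3 : ⁅p j, cc i⁆ ≠ 1 := fun h => h2 (commutatorElement_eq_one_iff_commute.1 h)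
    refine hS ⁅p j, cc i⁆ ?_ ?_
    · refine Finset.mem_filter.2 ⟨?_, h3⟩
      fin_cases i
      · refine Finset.mem_union_left _ (Finset.mem_union_right _ ?_)
        exact Finset.mem_image.2 ⟨j, Finset.mem_range.2 (by omega), rfl⟩
      · refine Finset.mem_union_right _ ?_
        exact Finset.mem_image.2 ⟨j, Finset.mem_range.2 (by omega), rfl⟩
    · rw [map_commutatorElement, commutatorElement_eq_one_iff_commute]
      exact h1
  let α : F →* Perm (P × Fin (N + 1)) := (lm P (Fin (N + 1))).comp f
  have hα : ∀ w q, α w q = (f w * q.1, q.2) := fun w q => rfl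
  have hfr : ∀ w : F, (∀ k : ℤ, f w ^ k = 1 ↔ (n : ℤ) ∣ k) → Fr n (α w) := by
    intro w hw k q
    rw [← map_zpow, hα, ← hw k, map_zpow]
    constructor
    · intro h
      exact mul_eq_right.1 (congrArg Prod.fst h)
    · intro h
      rw [h, one_mul]
  let A : Fin N → P × Fin (N + 1) := fun j => (f (p j), j.castSucc)
  let B : Fin N → P × Fin (N + 1) := fun j => (1, j.succ)
  let src : Fin N → P × Fin (N + 1) := fun j => if (s j).2 then A j else B j
  let tgt : Fin N → P × Fin (N + 1) := fun j => if (s j).2 then B j else A j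
  -- the two key exclusions
  have hsrc : ∀ (i : Fin 2) (j j' : Fin N), (s j).1 = i → (s j').1 = i → (s j).2 = true →
      (s j').2 = false → ∀ k : ℤ, (j : ℕ) = j' + 1 → f (p j) ≠ f (cc i) ^ k := by
    intro i j j' h1 h2 h3 h4 k h5 h6
    have h7 : Commute (f (p j)) (f (cc i)) := by
      rw [h6]
      exact (Commute.refl _).zpow_left k
    obtain ⟨m, hm⟩ := mem_of_comm_cc i (hSc j j.2 i h7)
    have h8 := hred (j' : ℕ) (by rw [← h5]; exact j.2)
    rw [← h5] at h8
    exact h8 ⟨h1.trans h2.symm, Or.inl ⟨h3, h4, m, by rw [h1]; exact hm⟩⟩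
  have htgt : ∀ (i : Fin 2) (j j' : Fin N), (s j).1 = i → (s j').1 = i → (s j).2 = false →
      (s j').2 = true → ∀ k : ℤ, (j : ℕ) = j' + 1 → f (p j) ≠ f xx ^ k := by
    intro i j j' h1 h2 h3 h4 k h5 h6
    have h7 : Commute (f (p j)) (f xx) := by
      rw [h6]
      exact (Commute.refl _).zpow_left k
    obtain ⟨m, hm⟩ := mem_of_comm_xx (hSx j j.2 h7)
    have h8 := hred (j' : ℕ) (by rw [← h5]; exact j.2)
    rw [← h5] at h8
    exact h8 ⟨h1.trans h2.symm, Or.inr ⟨h3, h4, m, hm⟩⟩
  have hT : ∀ i : Fin 2, ∃ U : Perm (P × Fin (N + 1)), (∀ w, U (α (cc i) w) = α xx (U w)) ∧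
      ∀ j : {j : Fin N // (s j).1 = i}, U (src j.1) = tgt j.1 := by
    intro i
    refine extend (hfr _ (hc i)) (hfr _ hx) (fun j : {j : Fin N // (s j).1 = i} => src j.1)
      (fun j => tgt j.1) ?_ ?_
    · rintro ⟨j, hj⟩ ⟨j', hj'⟩ h
      obtain ⟨h1, k, h2⟩ := lm_sameCycle h
      refine Subtype.ext ?_
      show j = j'
      rcases hb : (s j).2 with _ | _ <;> rcases hb' : (s j').2 with _ | _
      · simp only [src, hb, hb', Bool.false_eq_true, if_false] at h1
        exact Fin.succ_injective _ h1
      · simp only [src, hb, hb', Bool.false_eq_true, if_false, if_true] at h1 h2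
        exfalso
        have h3 : (j' : ℕ) = j + 1 := by
          have := congrArg Fin.val h1
          simp only [A, B, Fin.val_succ, Fin.val_castSucc] at this
          exact this.symm
        have h4 : f (p j') = f (cc i) ^ k := by
          simp only [A, B, mul_one] at h2
          exact h2.symm
        exact hsrc i j' j hj' hj hb' hb k h3 h4
      · simp only [src, hb, hb', Bool.false_eq_true, if_false, if_true] at h1 h2
        exfalso
        have h3 : (j : ℕ) = j' + 1 := by
          have := congrArg Fin.val h1
          simp only [A, B, Fin.val_succ, Fin.val_castSucc] at this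
          exact this
        have h4 : f (p j) = f (cc i) ^ (-k) := by
          simp only [A, B] at h2
          rw [zpow_neg]
          exact eq_inv_of_mul_eq_one_right h2
        exact hsrc i j j' hj hj' hb hb' (-k) h3 h4
      · simp only [src, hb, hb', if_true] at h1
        exact Fin.castSucc_injective _ h1
    · rintro ⟨j, hj⟩ ⟨j', hj'⟩ h
      obtain ⟨h1, k, h2⟩ := lm_sameCycle h
      refine Subtype.ext ?_
      show j = j'
      rcases hb : (s j).2 with _ | _ <;> rcases hb' : (s j').2 with _ | _
      · simp only [tgt, hb, hb', Bool.false_eq_true, if_false] at h1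
        exact Fin.castSucc_injective _ h1
      · simp only [tgt, hb, hb', Bool.false_eq_true, if_false, if_true] at h1 h2
        exfalso
        have h3 : (j : ℕ) = j' + 1 := by
          have := congrArg Fin.val h1
          simp only [A, B, Fin.val_succ, Fin.val_castSucc] at this
          exact this
        have h4 : f (p j) = f xx ^ (-k) := by
          simp only [A, B] at h2
          rw [zpow_neg]
          exact eq_inv_of_mul_eq_one_right h2
        exact htgt i j j' hj hj' hb hb' (-k) h3 h4
      · simp only [tgt, hb, hb', Bool.false_eq_true, if_false, if_true] at h1 h2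
        exfalso
        have h3 : (j' : ℕ) = j + 1 := by
          have := congrArg Fin.val h1
          simp only [A, B, Fin.val_succ, Fin.val_castSucc] at this
          exact this.symm
        have h4 : f (p j') = f xx ^ k := by
          simp only [A, B, mul_one] at h2
          exact h2.symm
        exact htgt i j' j hj' hj hb' hb k h3 h4
      · simp only [tgt, hb, hb', if_true] at h1
        exact Fin.succ_injective _ h1
  choose T hT1 hT2 using hT
  refine ⟨P × Fin (N + 1), inferInstance, α, T, ?_, ?_⟩
  · intro i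
    ext1 w
    rw [Perm.mul_apply, Perm.mul_apply, ← hT1, Perm.inv_eq_iff_eq]
  · have key : ∀ (j : ℕ) (hj : j ≤ N), W α T s p j ((1 : P), (0 : Fin (N + 1))) =
        ((1 : P), (⟨j, by omega⟩ : Fin (N + 1))) := by
      intro j
      induction j with
      | zero => intro _; rfl
      | succ j ih =>
        intro hj
        show (lt T (s j) * α (p j) * W α T s p j) _ = _
        rw [Perm.mul_apply, Perm.mul_apply, ih (by omega), hα, mul_one]
        have h1 := hT2 (s j).1 ⟨⟨j, by omega⟩, rfl⟩
        rcases hb : (s j).2 with _ | _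
        · simp only [src, tgt, hb, Bool.false_eq_true, if_false] at h1
          simp only [lt, hb, Bool.false_eq_true, if_false]
          rw [Perm.inv_eq_iff_eq]
          exact h1.symm
        · simp only [src, tgt, hb, if_true] at h1
          simp only [lt, hb, if_true]
          exact h1
    intro h
    have h1 := congrArg (fun u => u ((1 : P), (0 : Fin (N + 1)))) h
    simp only [Perm.mul_apply, Perm.one_apply] at h1
    rw [key N le_rfl, hα] at h1
    simp only [mul_one, Prod.mk.injEq] at h1
    obtain ⟨h2, h3⟩ := h1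
    have h4 : N = 0 := by
      have := congrArg Fin.val h3
      simpa using this
    have h5 : p0 ≠ 1 := by
      rcases h0 with h | h
      · omega
      · exact h
    refine hS p0 ?_ h2
    refine Finset.mem_filter.2 ⟨?_, h5⟩
    exact Finset.mem_union_left _ (Finset.mem_union_left _ (Finset.mem_insert_self _ _))

end Pool.Agent.X333.RS
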