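import Mathlib
import Pool.Agent.X333.RS.Rep
set_option autoImplicit false

/-! The one-relator group `⟨x, u, v ∣ x = [x^u, x^v]⟩`. -/

namespace Pool.Agent.X333.RS

open Equiv
open scoped commutatorElement

/-- the relator -/
def rel : FreeGroup (Fin 3) :=
  (FreeGroup.of (0 : Fin 3))⁻¹ *
    ⁅(FreeGroup.of (1 : Fin 3))⁻¹ * FreeGroup.of (0 : Fin 3) * FreeGroup.of (1 : Fin 3),
    (FreeGroup.of (2 : Fin 3))⁻¹ * FreeGroup.of (0 : Fin 3) * FreeGroup.of (2 : Fin 3)⁆

/-- the group -/
abbrev GG : Type := PresentedGroup ({rel} : Set (FreeGroup (Fin 3)))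

/-- the generators of the group -/
def gen (i : Fin 3) : GG := PresentedGroup.of i

theorem map_rel {H : Type} [Group H] (φ : FreeGroup (Fin 3) →* H) :
    φ rel = (φ (FreeGroup.of 0))⁻¹ *
      ⁅(φ (FreeGroup.of 1))⁻¹ * φ (FreeGroup.of 0) * φ (FreeGroup.of 1),
      (φ (FreeGroup.of 2))⁻¹ * φ (FreeGroup.of 0) * φ (FreeGroup.of 2)⁆ := by
  simp only [rel, map_mul, map_inv, map_commutatorElement]

theorem gen_rel : gen 0 = ⁅(gen 1)⁻¹ * gen 0 * gen 1, (gen 2)⁻¹ * gen 0 * gen 2⁆ := by
  have h : (PresentedGroup.mk ({rel} : Set (FreeGroup (Fin 3)))) rel = 1 :=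
    PresentedGroup.one_of_mem (Set.mem_singleton _)
  have h1 : (PresentedGroup.mk ({rel} : Set (FreeGroup (Fin 3)))) rel =
      (gen 0)⁻¹ * ⁅(gen 1)⁻¹ * gen 0 * gen 1, (gen 2)⁻¹ * gen 0 * gen 2⁆ :=
    map_rel (PresentedGroup.mk _)
  rw [h1] at h
  exact (inv_mul_eq_one.1 h)

/-- the stable letters -/
def st (i : Fin 2) : GG := gen i.succ

/-- the map of the base group -/
def ev : F →* GG := FreeGroup.lift fun i => (st i)⁻¹ * gen 0 * st i

theorem ev_cc (i : Fin 2) : ev (cc i) = (st i)⁻¹ * gen 0 * st i := by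
  simp [ev, cc]

theorem ev_xx : ev xx = gen 0 := by
  rw [xx, map_commutatorElement, ev_cc, ev_cc]
  exact gen_rel.symm

theorem hrel (i : Fin 2) : (st i)⁻¹ * ev xx * st i = ev (cc i) := by
  rw [ev_xx, ev_cc]

theorem hasForm_all (g : GG) : HasForm ev st g := by
  obtain ⟨w, rfl⟩ := PresentedGroup.mk_surjective _ g
  have key : ∀ w : FreeGroup (Fin 3), ∀ g : GG, HasForm ev st g →
      HasForm ev st (PresentedGroup.mk _ w * g) := by
    intro w
    induction w using FreeGroup.induction_on with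
    | C1 =>
      intro g hg
      rw [map_one, one_mul]
      exact hg
    | of a =>
      intro g hg
      show HasForm ev st (gen a * g)
      fin_cases a
      · have := hasForm_ev ev st xx hg
        rw [ev_xx] at this
        exact this
      · exact hasForm_lt ev st hrel (0, true) hg
      · exact hasForm_lt ev st hrel (1, true) hg
    | inv_of a _ =>
      intro g hg
      rw [map_inv]
      show HasForm ev st ((gen a)⁻¹ * g)
      fin_cases a
      · have := hasForm_ev ev st xx⁻¹ hg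
        rw [map_inv, ev_xx] at this
        exact this
      · exact hasForm_lt ev st hrel (0, false) hg
      · exact hasForm_lt ev st hrel (1, false) hg
    | mul a b iha ihb =>
      intro g hg
      rw [map_mul, mul_assoc]
      exact iha _ (ihb _ hg)
  have := key w 1 (hasForm_one ev st)
  rwa [mul_one] at this

theorem separated (s : ℕ → Fin 2 × Bool) (p : ℕ → F) (N : ℕ) (hred : Red s p N) (p0 : F)
    (h0 : 0 < N ∨ p0 ≠ 1) :
    ∃ K : Subgroup GG, K.Normal ∧ K.FiniteIndex ∧ ev p0 * W ev st s p N ∉ K := by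
  obtain ⟨Ω, hΩ, α, T, h1, h2⟩ := separate s p N hred p0 h0
  let f : Fin 3 → Perm Ω := Fin.cons (α xx) T
  have hf0 : f 0 = α xx := rfl
  have hfs : ∀ i : Fin 2, f i.succ = T i := fun i => rfl
  have hf1 : f 1 = T 0 := rfl
  have hf2 : f 2 = T 1 := rfl
  have hr : ∀ r ∈ ({rel} : Set (FreeGroup (Fin 3))), FreeGroup.lift f r = 1 := by
    intro r hr
    rw [Set.mem_singleton_iff] at hr
    subst hr
    rw [map_rel]
    simp only [FreeGroup.lift_apply_of]
    rw [hf0, hf1, hf2, h1, h1, ← map_commutatorElement]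
    exact inv_mul_cancel _
  let ρ : GG →* Perm Ω := PresentedGroup.toGroup hr
  have hρ : ∀ i, ρ (gen i) = f i := fun i => PresentedGroup.toGroup.of hr
  have hρev : ρ.comp ev = α := by
    ext1 i
    show ρ (ev (cc i)) = α (cc i)
    rw [ev_cc, map_mul, map_mul, map_inv, hρ, ← h1]
    show (ρ (gen i.succ))⁻¹ * _ * ρ (gen i.succ) = _
    rw [hρ, hfs, hf0]
  have hρlt : ∀ a, ρ (lt st a) = lt T a := by
    rintro ⟨i, b⟩
    cases b
    · show ρ (gen i.succ)⁻¹ = (T i)⁻¹
      rw [map_inv, hρ, hfs]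
    · show ρ (gen i.succ) = T i
      rw [hρ, hfs]
  have hρW : ∀ j, ρ (W ev st s p j) = W α T s p j := by
    intro j
    induction j with
    | zero => exact map_one ρ
    | succ j ih =>
      show ρ (lt st (s j) * ev (p j) * W ev st s p j) = _
      rw [map_mul, map_mul, ih, hρlt]
      have : ρ (ev (p j)) = α (p j) := congrArg (fun h : F →* Perm Ω => h (p j)) hρev
      rw [this]
      rfl
  refine ⟨ρ.ker, inferInstance, ?_, ?_⟩
  · have : Finite ρ.range := inferInstance
    exact Subgroup.finiteIndex_ker ρ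
  · intro h
    rw [MonoidHom.mem_ker, map_mul, hρW] at h
    have : ρ (ev p0) = α p0 := congrArg (fun h : F →* Perm Ω => h p0) hρev
    rw [this] at h
    exact h2 h

theorem residually_finite (g : GG) (hg : g ≠ 1) :
    ∃ K : Subgroup GG, K.Normal ∧ K.FiniteIndex ∧ g ∉ K := by
  obtain ⟨N, s, p, p0, h1, h2⟩ := hasForm_all g
  have h3 : 0 < N ∨ p0 ≠ 1 := by
    by_contra h
    push Not at h
    obtain ⟨h4, h5⟩ := h
    obtain rfl : N = 0 := by omega
    apply hg
    rw [h2, h5, map_one, one_mul]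
    rfl
  rw [h2]
  exact separated s p N h1 p0 h3

theorem xx_ne_one : xx ≠ 1 := by
  intro h
  have h1 := hh_xx ℤ
  rw [h, map_one] at h1
  have h2 := congrArg (fun s => (s ((0 : ℤ), (0 : ℤ))).2) h1
  have h3 : (0 : ℤ) = 0 - 1 := h2
  omega

theorem gen_ne_one : gen 0 ≠ 1 := by
  intro h
  obtain ⟨K, -, -, h1⟩ := separated (fun _ => (0, true)) (fun _ => 1) 0
    (fun j hj => absurd hj (by omega)) xx (Or.inr xx_ne_one)
  apply h1
  rw [ev_xx, h, one_mul]
  exact K.one_mem

theorem gen_mem (k : ℕ) : gen 0 ∈ derivedSeries GG k := by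
  induction k with
  | zero => exact Subgroup.mem_top _
  | succ k ih =>
    have hn : (derivedSeries GG k).Normal := derivedSeries_normal GG k
    have hconj : ∀ g : GG, g⁻¹ * gen 0 * g ∈ derivedSeries GG k := by
      intro g
      have := hn.conj_mem _ ih g⁻¹
      rwa [inv_inv] at this
    rw [derivedSeries_succ, gen_rel]
    exact Subgroup.commutator_mem_commutator (hconj _) (hconj _)

end Pool.Agent.X333.RS
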